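import Mathlib

/-!
# Orthogonally additive maps: a join which is larger than the pointwise supremum

The Riesz space `EE` consists of the functions `ℕ → ℝ` which are periodic modulo some `2^n`. The
points of `Om` are triples `(τ, α, β)` of finitely supported positive measures on `ℕ` with
`τ(ℕ) > 1`; put `P = τ + α`, `N = τ + β`. The Riesz space `FF` consists of the functions on `Om`
which depend, for some `n`, only on the values of `P` and `N` at the sets which are periodic modulo
`2^n`. The maps `f ↦ P {f = 1}` and `f ↦ N {f = 1}` are orthogonally additive maps `EE → FF`,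
and the join of `P - N` and `0` is `P`, although `P A - N A ≤ P ℕ - 1` for all `A`.
-/

set_option autoImplicit false

namespace Pool.Agent.X264.OAO

open scoped NNReal

/-! ### Measures -/

/-- Finitely supported positive measures, as lists of weighted points. -/
abbrev Meas : Type := List (ℕ × ℝ≥0)

open Classical in
/-- The mass of a set. -/
noncomputable def m (l : Meas) (A : Set ℕ) : ℝ :=
  (l.map fun p => if p.1 ∈ A then (p.2 : ℝ) else 0).sum

@[simp] theorem m_nil (A : Set ℕ) : m [] A = 0 := by simp [m]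

open Classical in
@[simp] theorem m_cons (p : ℕ × ℝ≥0) (l : Meas) (A : Set ℕ) :
    m (p :: l) A = (if p.1 ∈ A then (p.2 : ℝ) else 0) + m l A := by simp [m]

@[simp] theorem m_append (l l' : Meas) (A : Set ℕ) : m (l ++ l') A = m l A + m l' A := by
  simp [m]

theorem m_nonneg (l : Meas) (A : Set ℕ) : 0 ≤ m l A := by
  induction l with
  | nil => simp
  | cons p l ih =>
    rw [m_cons]
    split_ifs
    · exact add_nonneg p.2.2 ih
    · rwa [zero_add]

theorem m_union (l : Meas) {A B : Set ℕ} (h : Disjoint A B) : m l (A ∪ B) = m l A + m l B := by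
  induction l with
  | nil => simp
  | cons p l ih =>
    rw [m_cons, m_cons, m_cons, ih]
    by_cases hA : p.1 ∈ A
    · have hB : p.1 ∉ B := fun hB => Set.disjoint_left.1 h hA hB
      simp [hA, hB]
      ring
    · by_cases hB : p.1 ∈ B
      · simp [hA, hB]
        ring
      · simp [hA, hB]

theorem m_mono (l : Meas) {A B : Set ℕ} (h : A ⊆ B) : m l A ≤ m l B := by
  have : B = A ∪ (B \ A) := by rw [Set.union_sdiff_cancel h]
  rw [this, m_union l Set.disjoint_sdiff_right]
  linarith [m_nonneg l (B \ A)]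

theorem m_compl (l : Meas) (A : Set ℕ) : m l A + m l Aᶜ = m l Set.univ := by
  rw [← m_union l disjoint_compl_right, Set.union_compl_self]

theorem m_eq_zero (l : Meas) (A : Set ℕ) (h : ∀ p ∈ l, p.1 ∉ A) : m l A = 0 := by
  induction l with
  | nil => simp
  | cons p l ih =>
    rw [m_cons, if_neg (h p List.mem_cons_self), zero_add]
    exact ih fun q hq => h q (List.mem_cons_of_mem _ hq)

open Classical in
theorem m_filter_add (l : Meas) (c A : Set ℕ) :
    m (l.filter fun p => p.1 ∈ c) A + m (l.filter fun p => p.1 ∉ c) A = m l A := by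
  induction l with
  | nil => simp
  | cons p l ih =>
    by_cases hc : p.1 ∈ c
    · rw [List.filter_cons_of_pos (by simpa using hc), List.filter_cons_of_neg (by simpa using hc)]
      rw [m_cons, m_cons, add_assoc, ih]
    · rw [List.filter_cons_of_neg (by simpa using hc), List.filter_cons_of_pos (by simpa using hc)]
      rw [m_cons, m_cons, ← ih]
      ring

/-- The translate of a measure. -/
def shift (s : ℕ) (l : Meas) : Meas := l.map fun p => (p.1 + s, p.2)

theorem m_shift (s : ℕ) (l : Meas) (A : Set ℕ) (h : ∀ x, x + s ∈ A ↔ x ∈ A) :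
    m (shift s l) A = m l A := by
  induction l with
  | nil => simp [shift]
  | cons p l ih =>
    have : shift s (p :: l) = (p.1 + s, p.2) :: shift s l := rfl
    rw [this, m_cons, m_cons, ih]
    by_cases hp : p.1 ∈ A
    · rw [if_pos ((h _).2 hp), if_pos hp]
    · rw [if_neg (fun h' => hp ((h _).1 h')), if_neg hp]

/-! ### Periodic sets -/

/-- The sets which are periodic modulo `2^n`. -/
def Per (n : ℕ) (A : Set ℕ) : Prop := ∀ x, x + 2 ^ n ∈ A ↔ x ∈ A

theorem Per.mul {n : ℕ} {A : Set ℕ} (h : Per n A) (k x : ℕ) : x + k * 2 ^ n ∈ A ↔ x ∈ A := by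
  induction k with
  | zero => simp
  | succ k ih =>
    rw [add_mul, one_mul, ← add_assoc, h, ih]

theorem Per.mono {n n' : ℕ} {A : Set ℕ} (h : Per n A) (hn : n ≤ n') : Per n' A := by
  intro x
  obtain ⟨d, rfl⟩ := Nat.exists_eq_add_of_le hn
  rw [pow_add, mul_comm]
  exact h.mul _ x

theorem per_univ (n : ℕ) : Per n Set.univ := fun _ => by simp

theorem Per.compl {n : ℕ} {A : Set ℕ} (h : Per n A) : Per n Aᶜ := fun x => not_congr (h x)

theorem Per.inter {n : ℕ} {A B : Set ℕ} (h : Per n A) (h' : Per n B) : Per n (A ∩ B) :=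
  fun x => and_congr (h x) (h' x)

theorem Per.union {n : ℕ} {A B : Set ℕ} (h : Per n A) (h' : Per n B) : Per n (A ∪ B) :=
  fun x => or_congr (h x) (h' x)

theorem Per.diff {n : ℕ} {A B : Set ℕ} (h : Per n A) (h' : Per n B) : Per n (A \ B) :=
  h.inter h'.compl

theorem per_mod {n : ℕ} (R : ℕ → Prop) : Per n {x | R (x % 2 ^ n)} := fun x => by simp

/-! ### The points -/

/-- The points: triples `(τ, α, β)` of measures with `τ(ℕ) > 1`. -/
structure Om where
  /-- the common part -/
  τ : Meas
  /-- the rest of `P` -/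
  α : Meas
  /-- the rest of `N` -/
  β : Meas
  one_lt : 1 < m τ Set.univ

/-- The first measure. -/
noncomputable def Om.P (ω : Om) (A : Set ℕ) : ℝ := m ω.τ A + m ω.α A

/-- The second measure. -/
noncomputable def Om.N (ω : Om) (A : Set ℕ) : ℝ := m ω.τ A + m ω.β A

theorem Om.P_nonneg (ω : Om) (A : Set ℕ) : 0 ≤ ω.P A := add_nonneg (m_nonneg _ _) (m_nonneg _ _)

theorem Om.N_nonneg (ω : Om) (A : Set ℕ) : 0 ≤ ω.N A := add_nonneg (m_nonneg _ _) (m_nonneg _ _)

theorem Om.P_union (ω : Om) {A B : Set ℕ} (h : Disjoint A B) : ω.P (A ∪ B) = ω.P A + ω.P B := by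
  unfold Om.P
  rw [m_union _ h, m_union _ h]
  ring

theorem Om.N_union (ω : Om) {A B : Set ℕ} (h : Disjoint A B) : ω.N (A ∪ B) = ω.N A + ω.N B := by
  unfold Om.N
  rw [m_union _ h, m_union _ h]
  ring

/-- The two points cannot be distinguished at the level `n`. -/
def Same (n : ℕ) (ω ω' : Om) : Prop := ∀ A, Per n A → ω.P A = ω'.P A ∧ ω.N A = ω'.N A

theorem Same.mono {n n' : ℕ} {ω ω' : Om} (h : Same n' ω ω') (hn : n ≤ n') : Same n ω ω' :=
  fun A hA => h A (hA.mono hn)

theorem Same.symm {n : ℕ} {ω ω' : Om} (h : Same n ω ω') : Same n ω' ω :=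
  fun A hA => ⟨(h A hA).1.symm, (h A hA).2.symm⟩

theorem Same.trans {n : ℕ} {ω ω' ω'' : Om} (h : Same n ω ω') (h' : Same n ω' ω'') :
    Same n ω ω'' :=
  fun A hA => ⟨(h A hA).1.trans (h' A hA).1, (h A hA).2.trans (h' A hA).2⟩

/-! ### The key lemma -/

section Key

variable (D : Set ℕ → Om → ℝ)

/-- If the common mass in `c` is small, then the two measures can be separated in `c`. -/
theorem key_cell (n₀ : ℕ) (c : Set ℕ) (hc : Per n₀ c)
    (h1 : ∃ n, ∀ ω ω', Same n ω ω' → D c ω = D c ω')
    (h2 : ∀ n A B, Per n A → Per n B → Disjoint A B → ∀ ω, D (A ∪ B) ω = D A ω + D B ω)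
    (h3 : ∀ n A, Per n A → ∀ ω, D A ω ≤ ω.P A)
    (h4 : ∀ n A, Per n A → ∀ ω, D A ω ≤ ω.N A)
    (ω : Om) (hω : m ω.τ c < m ω.τ Set.univ - 1) : D c ω ≤ 0 := by
  classical
  obtain ⟨n, hn⟩ := h1
  -- the shift
  obtain ⟨bd, hbd⟩ : ∃ bd, ∀ p ∈ ω.τ ++ ω.α, p.1 < bd := by
    refine ⟨((ω.τ ++ ω.α).map Prod.fst).sum + 1, fun p hp => Nat.lt_succ_of_le ?_⟩
    exact List.single_le_sum (by simp) _ (List.mem_map.2 ⟨p, hp, rfl⟩)
  set s : ℕ := bd * 2 ^ n with hs
  have hbs : bd ≤ s := Nat.le_mul_of_pos_right _ (by positivity)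
  set τ' : Meas := ω.τ.filter fun p => p.1 ∉ c with hτ'
  set τc : Meas := ω.τ.filter fun p => p.1 ∈ c with hτc
  have hsplit : ∀ A, m τc A + m τ' A = m ω.τ A := fun A => m_filter_add _ _ _
  have hτcle : m τc Set.univ ≤ m ω.τ c := by
    have e1 : m τc Set.univ = m τc c := by
      have e2 := m_compl τc c
      have e3 : m τc cᶜ = 0 := by
        apply m_eq_zero
        intro p hp
        rw [hτc, List.mem_filter] at hp
        simpa using hp.2
      linarith
    have := hsplit c
    linarith [m_nonneg τ' c]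
  let ω' : Om :=
    { τ := τ'
      α := ω.α ++ τc
      β := shift s (τc ++ ω.β)
      one_lt := by
        have := hsplit Set.univ
        linarith }
  have hP : ∀ A, ω'.P A = ω.P A := by
    intro A
    show m τ' A + m (ω.α ++ τc) A = m ω.τ A + m ω.α A
    rw [m_append, ← hsplit A]
    ring
  have hN : ∀ A, ω'.N A = m τ' A + m (shift s (τc ++ ω.β)) A := fun A => rfl
  have hsame : Same n ω ω' := by
    intro A hA
    refine ⟨(hP A).symm, ?_⟩
    rw [hN, m_shift _ _ _ (hA.mul bd), m_append]
    unfold Om.N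
    rw [← hsplit A]
    ring
  -- the separation
  obtain ⟨M, hM⟩ : ∃ M, ∀ p ∈ shift s (τc ++ ω.β), p.1 < 2 ^ M := by
    refine ⟨((shift s (τc ++ ω.β)).map Prod.fst).sum, fun p hp => ?_⟩
    refine lt_of_le_of_lt ?_ Nat.lt_two_pow_self
    exact List.single_le_sum (by simp) _ (List.mem_map.2 ⟨p, hp, rfl⟩)
  set G : Set ℕ := {x | s ≤ x % 2 ^ M} with hG
  have hGper : Per M G := per_mod (fun r => s ≤ r)
  have p1 : Per (max n₀ M) (c ∩ G) :=
    (hc.mono (le_max_left _ _)).inter (hGper.mono (le_max_right _ _))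
  have p2 : Per (max n₀ M) (c \ G) :=
    (hc.mono (le_max_left _ _)).diff (hGper.mono (le_max_right _ _))
  have e1 : D c ω' = D (c ∩ G) ω' + D (c \ G) ω' := by
    rw [← h2 _ _ _ p1 p2 (Set.disjoint_sdiff_inter.symm), Set.inter_union_sdiff]
  have e2 : ω'.P (c ∩ G) = 0 := by
    rw [hP]
    unfold Om.P
    rw [← m_append]
    apply m_eq_zero
    rintro p hp ⟨-, hpG⟩
    have a1 := hbd p hp
    have a2 : p.1 % 2 ^ M ≤ p.1 := Nat.mod_le _ _
    have a3 : s ≤ p.1 % 2 ^ M := hpG
    omega
  have e3 : ω'.N (c \ G) = 0 := by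
    rw [hN]
    have b1 : m τ' (c \ G) = 0 := by
      apply m_eq_zero
      rintro p hp ⟨hpc, -⟩
      rw [hτ', List.mem_filter] at hp
      exact absurd hpc (by simpa using hp.2)
    have b2 : m (shift s (τc ++ ω.β)) (c \ G) = 0 := by
      apply m_eq_zero
      rintro p hp ⟨-, hpG⟩
      apply hpG
      show s ≤ p.1 % 2 ^ M
      rw [Nat.mod_eq_of_lt (hM p hp)]
      unfold shift at hp
      rw [List.mem_map] at hp
      obtain ⟨q, -, rfl⟩ := hp
      exact Nat.le_add_left _ _
    rw [b1, b2, add_zero]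
  have := h3 _ _ p1 ω'
  have := h4 _ _ p2 ω'
  rw [hn ω ω' hsame, e1]
  linarith

/-- Spreading out a measure. -/
noncomputable def spread (n K : ℕ) (l : Meas) : Meas :=
  l.flatMap fun p => (List.range K).map fun j => (p.1 + j * 2 ^ n, p.2 / K)

theorem m_spread {n K : ℕ} (hK : 0 < K) (l : Meas) {A : Set ℕ} (hA : Per n A) :
    m (spread n K l) A = m l A := by
  have hK' : (K : ℝ) ≠ 0 := by exact_mod_cast hK.ne'
  induction l with
  | nil => simp [spread]
  | cons p l ih =>
    have e : spread n K (p :: l) =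
        ((List.range K).map fun j => (p.1 + j * 2 ^ n, p.2 / K)) ++ spread n K l := rfl
    rw [e, m_append, ih, m_cons]
    congr 1
    unfold m
    rw [List.map_map]
    by_cases hp : p.1 ∈ A
    · rw [if_pos hp]
      have : (List.range K).map ((fun p : ℕ × ℝ≥0 => @ite _ (p.1 ∈ A)
          (Classical.propDecidable _) (p.2 : ℝ) 0) ∘
          fun j => (p.1 + j * 2 ^ n, p.2 / K)) = (List.range K).map fun _ => (p.2 : ℝ) / K := by
        apply List.map_congr_left
        intro j _
        simp only [Function.comp_apply]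
        rw [if_pos ((hA.mul j p.1).2 hp), NNReal.coe_div, NNReal.coe_natCast]
      rw [this, List.map_const', List.sum_replicate, List.length_range, nsmul_eq_mul]
      field_simp
    · rw [if_neg hp]
      have : (List.range K).map ((fun p : ℕ × ℝ≥0 => @ite _ (p.1 ∈ A)
          (Classical.propDecidable _) (p.2 : ℝ) 0) ∘
          fun j => (p.1 + j * 2 ^ n, p.2 / K)) = (List.range K).map fun _ => (0 : ℝ) := by
        apply List.map_congr_left
        intro j _
        simp only [Function.comp_apply]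
        rw [if_neg fun h => hp ((hA.mul j p.1).1 h)]
      rw [this, List.map_const', List.sum_replicate, smul_zero]

theorem m_spread_le {n K : ℕ} (hK : 0 < K) (l : Meas) (t : ℕ) :
    m (spread n K l) {x | x / 2 ^ n % K = t} ≤ m l Set.univ / K := by
  have hK' : (0 : ℝ) < K := by exact_mod_cast hK
  induction l with
  | nil => simp [spread]
  | cons p l ih =>
    have e : spread n K (p :: l) =
        ((List.range K).map fun j => (p.1 + j * 2 ^ n, p.2 / K)) ++ spread n K l := rfl
    rw [e, m_append, m_cons, if_pos (Set.mem_univ _), add_div]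
    refine add_le_add ?_ ih
    -- at most one term
    have key : ∀ L : List ℕ, L.Nodup → (∀ j ∈ L, j < K) →
        m (L.map fun j => (p.1 + j * 2 ^ n, p.2 / (K : ℝ≥0))) {x | x / 2 ^ n % K = t} ≤
          (p.2 : ℝ) / K := by
      intro L
      induction L with
      | nil =>
        intro _ _
        simp only [List.map_nil, m_nil]
        positivity
      | cons j L ihL =>
        intro hnd hL
        rw [List.nodup_cons] at hnd
        rw [List.map_cons, m_cons]
        by_cases hj : (p.1 + j * 2 ^ n) / 2 ^ n % K = t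
        · rw [if_pos (by exact hj)]
          have : m (L.map fun j => (p.1 + j * 2 ^ n, p.2 / (K : ℝ≥0)))
              {x | x / 2 ^ n % K = t} = 0 := by
            apply m_eq_zero
            intro q hq hq'
            rw [List.mem_map] at hq
            obtain ⟨i, hi, rfl⟩ := hq
            have hq2 : (p.1 + i * 2 ^ n) / 2 ^ n % K = t := hq'
            rw [Nat.add_mul_div_right _ _ (by positivity)] at hj hq2
            have h5 : p.1 / 2 ^ n + i ≡ p.1 / 2 ^ n + j [MOD K] := hq2.trans hj.symm
            have h6 : i ≡ j [MOD K] := Nat.ModEq.add_left_cancel' _ h5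
            have h7 : i = j := by
              have := h6
              unfold Nat.ModEq at this
              rwa [Nat.mod_eq_of_lt (hL i (List.mem_cons_of_mem _ hi)),
                Nat.mod_eq_of_lt (hL j List.mem_cons_self)] at this
            exact hnd.1 (h7 ▸ hi)
          rw [this, add_zero]
          simp
        · rw [if_neg (by exact hj), zero_add]
          exact ihL hnd.2 fun i hi => hL i (List.mem_cons_of_mem _ hi)
    exact key _ List.nodup_range fun j hj => List.mem_range.1 hj

/-- The key lemma. -/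
theorem key
    (h1 : ∀ n A, Per n A → ∃ n, ∀ ω ω', Same n ω ω' → D A ω = D A ω')
    (h2 : ∀ n A B, Per n A → Per n B → Disjoint A B → ∀ ω, D (A ∪ B) ω = D A ω + D B ω)
    (h3 : ∀ n A, Per n A → ∀ ω, D A ω ≤ ω.P A)
    (h4 : ∀ n A, Per n A → ∀ ω, D A ω ≤ ω.N A)
    (n₀ : ℕ) (A : Set ℕ) (hA : Per n₀ A) (ω : Om) : D A ω ≤ 0 := by
  obtain ⟨n₁, hn₁⟩ := h1 n₀ A hA
  set n := max n₀ n₁ with hn
  have hA' : Per n A := hA.mono (le_max_left _ _)
  -- the fineness
  obtain ⟨k, hk⟩ : ∃ k : ℕ, m ω.τ Set.univ / ((2 ^ k : ℕ) : ℝ) < m ω.τ Set.univ - 1 := by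
    have hpos : 0 < m ω.τ Set.univ - 1 := by linarith [ω.one_lt]
    obtain ⟨k, hk⟩ := pow_unbounded_of_one_lt (m ω.τ Set.univ / (m ω.τ Set.univ - 1))
      (one_lt_two (α := ℝ))
    refine ⟨k, ?_⟩
    push_cast
    rw [div_lt_iff₀ (by positivity)]
    rw [div_lt_iff₀ hpos] at hk
    linarith
  set K : ℕ := 2 ^ k with hK
  have hKpos : 0 < K := by positivity
  let ω' : Om :=
    { τ := spread n K ω.τ
      α := spread n K ω.α
      β := spread n K ω.β
      one_lt := by
        rw [m_spread hKpos _ (per_univ n)]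
        exact ω.one_lt }
  have hsame : Same n ω ω' := by
    intro B hB
    refine ⟨?_, ?_⟩
    · show m ω.τ B + m ω.α B = m (spread n K ω.τ) B + m (spread n K ω.α) B
      rw [m_spread hKpos _ hB, m_spread hKpos _ hB]
    · show m ω.τ B + m ω.β B = m (spread n K ω.τ) B + m (spread n K ω.β) B
      rw [m_spread hKpos _ hB, m_spread hKpos _ hB]
  rw [hn₁ ω ω' (hsame.mono (le_max_right _ _))]
  -- the digits
  have hdig : ∀ R : ℕ → Prop, Per (n + k) {x | R (x / 2 ^ n % K)} := by
    intro R x
    have : (x + 2 ^ (n + k)) / 2 ^ n % K = x / 2 ^ n % K := by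
      rw [pow_add, mul_comm, Nat.add_mul_div_right _ _ (by positivity), hK,
        Nat.add_mod_right]
    simp only [Set.mem_ofPred_eq, this]
  have hA'' : Per (n + k) A := hA'.mono (Nat.le_add_right _ _)
  have claim : ∀ t : ℕ, D (A ∩ {x | x / 2 ^ n % K < t}) ω' ≤ 0 := by
    intro t
    induction t with
    | zero =>
      have e : A ∩ {x | x / 2 ^ n % K < 0} = ∅ := by ext x; simp
      rw [e]
      have p0 : Per (n + k) (∅ : Set ℕ) := fun x => by simp
      have := h2 _ ∅ ∅ p0 p0 (by simp) ω'
      rw [Set.union_empty] at this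
      linarith
    | succ t ih =>
      have e : A ∩ {x | x / 2 ^ n % K < t + 1} =
          (A ∩ {x | x / 2 ^ n % K < t}) ∪ (A ∩ {x | x / 2 ^ n % K = t}) := by
        rw [← Set.inter_union_distrib_left]
        congr 1
        ext x
        simp only [Set.mem_ofPred_eq, Set.mem_union]
        omega
      have q1 : Per (n + k) (A ∩ {x | x / 2 ^ n % K < t}) := hA''.inter (hdig fun r => r < t)
      have q2 : Per (n + k) (A ∩ {x | x / 2 ^ n % K = t}) := hA''.inter (hdig fun r => r = t)
      have hd : Disjoint (A ∩ {x | x / 2 ^ n % K < t}) (A ∩ {x | x / 2 ^ n % K = t}) := by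
        rw [Set.disjoint_left]
        rintro x ⟨-, hx⟩ ⟨-, hx'⟩
        simp only [Set.mem_ofPred_eq] at hx hx'
        omega
      rw [e, h2 _ _ _ q1 q2 hd]
      have : D (A ∩ {x | x / 2 ^ n % K = t}) ω' ≤ 0 := by
        apply key_cell D (n + k) _ q2 (h1 _ _ q2) h2 h3 h4
        refine lt_of_le_of_lt (m_mono _ Set.inter_subset_right) ?_
        have e5 : m ω'.τ Set.univ = m ω.τ Set.univ := m_spread hKpos _ (per_univ n)
        rw [e5]
        exact lt_of_le_of_lt (m_spread_le hKpos _ t) hk
      linarith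
  have e : A ∩ {x | x / 2 ^ n % K < K} = A := by
    rw [Set.inter_eq_left]
    intro x _
    exact Nat.mod_lt _ hKpos
  have := claim K
  rwa [e] at this

end Key

end Pool.Agent.X264.OAO
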