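import Pool.Agent.X264.OAO.Core

/-!
# The Riesz spaces and the join
-/

set_option autoImplicit false

namespace Pool.Agent.X264.OAO

/-- Orthogonal additivity: `T (x + y) = T x + T y` whenever `|x| ∧ |y| = 0`. -/
def IsOA {E F : Type*} [AddCommGroup E] [Lattice E] [AddCommGroup F] (T : E → F) : Prop :=
  ∀ x y : E, |x| ⊓ |y| = 0 → T (x + y) = T x + T y

/-- `P` is the least upper bound of `S` and `T` among the orthogonally additive maps `E → F`,
for the pointwise order. -/
structure IsJoin {E F : Type*} [AddCommGroup E] [Lattice E] [AddCommGroup F] [Lattice F]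
    (S T P : E → F) : Prop where
  oa : IsOA P
  left : ∀ x, S x ≤ P x
  right : ∀ x, T x ≤ P x
  least : ∀ Q : E → F, IsOA Q → (∀ x, S x ≤ Q x) → (∀ x, T x ≤ Q x) → ∀ x, P x ≤ Q x

/-! ### The domain -/

/-- The functions `ℕ → ℝ` which are periodic modulo some `2^n`. -/
def VE : Submodule ℝ (ℕ → ℝ) where
  carrier := {f | ∃ n, ∀ x, f (x + 2 ^ n) = f x}
  zero_mem' := ⟨0, fun _ => rfl⟩
  add_mem' := by
    rintro f g ⟨n, hn⟩ ⟨n', hn'⟩
    have per : ∀ (f : ℕ → ℝ) (n : ℕ), (∀ x, f (x + 2 ^ n) = f x) → ∀ k x,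
        f (x + k * 2 ^ n) = f x := by
      intro f n h k x
      induction k with
      | zero => simp
      | succ k ih => rw [add_mul, one_mul, ← add_assoc, h, ih]
    refine ⟨n + n', fun x => ?_⟩
    have h1 : f (x + 2 ^ (n + n')) = f x := by
      rw [pow_add, mul_comm]
      exact per f n hn _ x
    have h2 : g (x + 2 ^ (n + n')) = g x := by
      rw [pow_add]
      exact per g n' hn' _ x
    show f _ + g _ = f x + g x
    rw [h1, h2]
  smul_mem' := by
    rintro c f ⟨n, hn⟩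
    refine ⟨n, fun x => ?_⟩
    show c • f _ = c • f x
    rw [hn]

theorem VE_common {f g : ℕ → ℝ} (hf : f ∈ VE) (hg : g ∈ VE) :
    ∃ n, (∀ x, f (x + 2 ^ n) = f x) ∧ ∀ x, g (x + 2 ^ n) = g x := by
  obtain ⟨n, hn⟩ := hf
  obtain ⟨n', hn'⟩ := hg
  have per : ∀ (f : ℕ → ℝ) (n : ℕ), (∀ x, f (x + 2 ^ n) = f x) → ∀ k x,
      f (x + k * 2 ^ n) = f x := by
    intro f n h k x
    induction k with
    | zero => simp
    | succ k ih => rw [add_mul, one_mul, ← add_assoc, h, ih]
  refine ⟨n + n', fun x => ?_, fun x => ?_⟩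
  · rw [pow_add, mul_comm]
    exact per f n hn _ x
  · rw [pow_add]
    exact per g n' hn' _ x

/-- The Riesz space of the functions `ℕ → ℝ` which are periodic modulo some `2^n`. -/
abbrev EE : Type := VE

instance : Lattice EE :=
  Subtype.lattice
    (fun f g hf hg => by
      obtain ⟨n, h1, h2⟩ := VE_common hf hg
      exact ⟨n, fun x => by show f _ ⊔ g _ = f x ⊔ g x; rw [h1, h2]⟩)
    (fun f g hf hg => by
      obtain ⟨n, h1, h2⟩ := VE_common hf hg
      exact ⟨n, fun x => by show f _ ⊓ g _ = f x ⊓ g x; rw [h1, h2]⟩)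

instance : IsOrderedAddMonoid EE where
  add_le_add_left _ _ h _ x := add_le_add_left (h x) _

instance : PosSMulMono ℝ EE where
  smul_le_smul_of_nonneg_left _ hc _ _ h x := mul_le_mul_of_nonneg_left (h x) hc

theorem abs_apply_EE (f : EE) (x : ℕ) : (|f| : EE).1 x = |f.1 x| := rfl

theorem inf_apply_EE (f g : EE) (x : ℕ) : (f ⊓ g).1 x = f.1 x ⊓ g.1 x := rfl

theorem disj_EE {f g : EE} (h : |f| ⊓ |g| = 0) (x : ℕ) : f.1 x = 0 ∨ g.1 x = 0 := by
  have h1 : (|f| ⊓ |g|).1 x = 0 := by rw [h]; rfl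
  rw [inf_apply_EE, abs_apply_EE, abs_apply_EE] at h1
  rcases le_total (|f.1 x|) (|g.1 x|) with h2 | h2
  · rw [inf_eq_left.2 h2] at h1
    exact Or.inl (abs_eq_zero.1 h1)
  · rw [inf_eq_right.2 h2] at h1
    exact Or.inr (abs_eq_zero.1 h1)

theorem disj_EE_of {f g : EE} (h : ∀ x, f.1 x = 0 ∨ g.1 x = 0) : |f| ⊓ |g| = 0 := by
  apply Subtype.ext
  funext x
  rw [inf_apply_EE, abs_apply_EE, abs_apply_EE]
  show |f.1 x| ⊓ |g.1 x| = 0
  rcases h x with h | h
  · rw [h, abs_zero, inf_eq_left.2 (abs_nonneg _)]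
  · rw [h, abs_zero, inf_eq_right.2 (abs_nonneg _)]

/-- The level set `{f = 1}`. -/
def lev (f : EE) : Set ℕ := {x | f.1 x = 1}

theorem per_lev (f : EE) : ∃ n, Per n (lev f) := by
  obtain ⟨n, hn⟩ := f.2
  exact ⟨n, fun x => by show f.1 _ = 1 ↔ f.1 x = 1; rw [hn]⟩

theorem lev_add {f g : EE} (h : |f| ⊓ |g| = 0) :
    lev (f + g) = lev f ∪ lev g ∧ Disjoint (lev f) (lev g) := by
  refine ⟨?_, ?_⟩
  · ext x
    show f.1 x + g.1 x = 1 ↔ f.1 x = 1 ∨ g.1 x = 1
    rcases disj_EE h x with h | h <;> rw [h] <;> simp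
  · rw [Set.disjoint_left]
    intro x hx hx'
    have h1 : f.1 x = 1 := hx
    have h2 : g.1 x = 1 := hx'
    rcases disj_EE h x with h | h
    · rw [h] at h1; exact zero_ne_one h1
    · rw [h] at h2; exact zero_ne_one h2

open Classical in
/-- The indicator function of a periodic set (`0` for other sets). -/
noncomputable def ind (A : Set ℕ) : EE :=
  ⟨fun x => if (∃ n, Per n A) ∧ x ∈ A then 1 else 0, by
    by_cases h : ∃ n, Per n A
    · obtain ⟨n, hn⟩ := h
      refine ⟨n, fun x => ?_⟩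
      have := hn x
      show (if (∃ n, Per n A) ∧ x + 2 ^ n ∈ A then (1 : ℝ) else 0) =
        if (∃ n, Per n A) ∧ x ∈ A then 1 else 0
      by_cases hx : x ∈ A
      · rw [if_pos ⟨⟨n, hn⟩, this.2 hx⟩, if_pos ⟨⟨n, hn⟩, hx⟩]
      · rw [if_neg (fun h => hx (this.1 h.2)), if_neg (fun h => hx h.2)]
    · refine ⟨0, fun x => ?_⟩
      show (if (∃ n, Per n A) ∧ x + 2 ^ 0 ∈ A then (1 : ℝ) else 0) =
        if (∃ n, Per n A) ∧ x ∈ A then 1 else 0
      rw [if_neg (fun h' => h h'.1), if_neg (fun h' => h h'.1)]⟩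

theorem ind_mem {n : ℕ} {A : Set ℕ} (hA : Per n A) {x : ℕ} (hx : x ∈ A) : (ind A).1 x = 1 := by
  unfold ind
  exact if_pos ⟨⟨n, hA⟩, hx⟩

theorem ind_notMem {A : Set ℕ} {x : ℕ} (hx : x ∉ A) : (ind A).1 x = 0 := by
  unfold ind
  exact if_neg fun h => hx h.2

theorem lev_ind {n : ℕ} {A : Set ℕ} (hA : Per n A) : lev (ind A) = A := by
  ext x
  show (ind A).1 x = 1 ↔ x ∈ A
  by_cases hx : x ∈ A
  · simp [ind_mem hA hx, hx]
  · simp [ind_notMem hx, hx]

theorem ind_disj {A B : Set ℕ} (h : Disjoint A B) : |ind A| ⊓ |ind B| = 0 := by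
  apply disj_EE_of
  intro x
  by_cases hx : x ∈ A
  · exact Or.inr (ind_notMem fun hx' => Set.disjoint_left.1 h hx hx')
  · exact Or.inl (ind_notMem hx)

theorem ind_union {n : ℕ} {A B : Set ℕ} (hA : Per n A) (hB : Per n B) (h : Disjoint A B) :
    ind (A ∪ B) = ind A + ind B := by
  apply Subtype.ext
  funext x
  show (ind (A ∪ B)).1 x = (ind A).1 x + (ind B).1 x
  by_cases hx : x ∈ A
  · have hx' : x ∉ B := fun hx' => Set.disjoint_left.1 h hx hx'
    rw [ind_mem hA hx, ind_notMem hx', ind_mem (hA.union hB) (Or.inl hx), add_zero]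
  · by_cases hx' : x ∈ B
    · rw [ind_notMem hx, ind_mem hB hx', ind_mem (hA.union hB) (Or.inr hx'), zero_add]
    · rw [ind_notMem hx, ind_notMem hx', ind_notMem (fun h => h.elim hx hx'), add_zero]

/-! ### The range -/

/-- The functions on `Om` which depend only on the values of `P` and `N` at the sets which are
periodic modulo `2^n`, for some `n`. -/
def VF : Submodule ℝ (Om → ℝ) where
  carrier := {f | ∃ n, ∀ ω ω', Same n ω ω' → f ω = f ω'}
  zero_mem' := ⟨0, fun _ _ _ => rfl⟩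
  add_mem' := by
    rintro f g ⟨n, hn⟩ ⟨n', hn'⟩
    refine ⟨max n n', fun ω ω' h => ?_⟩
    show f _ + g _ = f _ + g _
    rw [hn ω ω' (h.mono (le_max_left _ _)), hn' ω ω' (h.mono (le_max_right _ _))]
  smul_mem' := by
    rintro c f ⟨n, hn⟩
    refine ⟨n, fun ω ω' h => ?_⟩
    show c • f _ = c • f _
    rw [hn ω ω' h]

/-- The Riesz space of the functions on `Om` which depend only on the values of `P` and `N` at the
sets which are periodic modulo `2^n`, for some `n`. -/
abbrev FF : Type := VF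

instance : Lattice FF :=
  Subtype.lattice
    (fun f g hf hg => by
      obtain ⟨n, hn⟩ := hf
      obtain ⟨n', hn'⟩ := hg
      refine ⟨max n n', fun ω ω' h => ?_⟩
      show f _ ⊔ g _ = f _ ⊔ g _
      rw [hn ω ω' (h.mono (le_max_left _ _)), hn' ω ω' (h.mono (le_max_right _ _))])
    (fun f g hf hg => by
      obtain ⟨n, hn⟩ := hf
      obtain ⟨n', hn'⟩ := hg
      refine ⟨max n n', fun ω ω' h => ?_⟩
      show f _ ⊓ g _ = f _ ⊓ g _
      rw [hn ω ω' (h.mono (le_max_left _ _)), hn' ω ω' (h.mono (le_max_right _ _))])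

instance : IsOrderedAddMonoid FF where
  add_le_add_left _ _ h _ x := add_le_add_left (h x) _

instance : PosSMulMono ℝ FF where
  smul_le_smul_of_nonneg_left _ hc _ _ h x := mul_le_mul_of_nonneg_left (h x) hc

theorem arch_FF (f g : FF) (h : ∀ n : ℕ, n • f ≤ g) : f ≤ 0 := by
  intro ω
  show f.1 ω ≤ 0
  by_contra hf
  push Not at hf
  obtain ⟨n, hn⟩ := exists_nat_gt (g.1 ω / f.1 ω)
  have h1 : (n • f).1 ω ≤ g.1 ω := h n ω
  have h2 : (n • f).1 ω = n * f.1 ω := by
    show (n • f.1) ω = _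
    rw [Pi.smul_apply, nsmul_eq_mul]
  rw [div_lt_iff₀ hf] at hn
  linarith

/-! ### The maps -/

/-- The map `f ↦ P {f = 1}`. -/
noncomputable def opP (f : EE) : FF :=
  ⟨fun ω => ω.P (lev f), by
    obtain ⟨n, hn⟩ := per_lev f
    exact ⟨n, fun ω ω' h => (h _ hn).1⟩⟩

/-- The map `f ↦ N {f = 1}`. -/
noncomputable def opN (f : EE) : FF :=
  ⟨fun ω => ω.N (lev f), by
    obtain ⟨n, hn⟩ := per_lev f
    exact ⟨n, fun ω ω' h => (h _ hn).2⟩⟩

/-- The map `f ↦ P {f = 1} - N {f = 1}`. -/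
noncomputable def opS (f : EE) : FF := opP f - opN f

theorem opP_oa : IsOA opP := by
  intro f g h
  obtain ⟨h1, h2⟩ := lev_add h
  apply Subtype.ext
  funext ω
  show ω.P (lev (f + g)) = ω.P (lev f) + ω.P (lev g)
  rw [h1, ω.P_union h2]

theorem opN_oa : IsOA opN := by
  intro f g h
  obtain ⟨h1, h2⟩ := lev_add h
  apply Subtype.ext
  funext ω
  show ω.N (lev (f + g)) = ω.N (lev f) + ω.N (lev g)
  rw [h1, ω.N_union h2]

theorem opS_oa : IsOA opS := by
  intro f g h
  unfold opS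
  rw [opP_oa f g h, opN_oa f g h]
  abel

theorem zero_oa : IsOA (fun _ : EE => (0 : FF)) := fun _ _ _ => by rw [add_zero]

theorem opS_apply (f : EE) (ω : Om) : (opS f).1 ω = ω.P (lev f) - ω.N (lev f) := rfl

/-- The join of `P - N` and `0` is `P`. -/
theorem join : IsJoin opS (fun _ => 0) opP where
  oa := opP_oa
  left f ω := by
    show ω.P (lev f) - ω.N (lev f) ≤ ω.P (lev f)
    linarith [ω.N_nonneg (lev f)]
  right f ω := ω.P_nonneg (lev f)
  least := by
    intro Q hQ hS h0 f ω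
    -- the difference, on sets
    let D : Set ℕ → Om → ℝ := fun A ω => ω.P (lev (ind A)) - (Q (ind A)).1 ω
    have hD : ∀ n A, Per n A → ∀ ω, D A ω = ω.P A - (Q (ind A)).1 ω := by
      intro n A hA ω
      show ω.P (lev (ind A)) - _ = _
      rw [lev_ind hA]
    have key1 : ∀ n A, Per n A → ∀ ω, D A ω ≤ 0 := by
      intro n A hA ω
      refine key D ?_ ?_ ?_ ?_ n A hA ω
      · intro n A hA
        obtain ⟨n', hn'⟩ := (Q (ind A)).2
        refine ⟨max n n', fun ω ω' h => ?_⟩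
        rw [hD n A hA, hD n A hA, (h A (hA.mono (le_max_left _ _))).1,
          hn' ω ω' (h.mono (le_max_right _ _))]
      · intro n A B hA hB hAB ω
        rw [hD n _ (hA.union hB), hD n A hA, hD n B hB, ω.P_union hAB, ind_union hA hB hAB,
          hQ _ _ (ind_disj hAB)]
        show _ - ((Q (ind A)).1 ω + (Q (ind B)).1 ω) = _
        ring
      · intro n A hA ω
        rw [hD n A hA]
        have : 0 ≤ (Q (ind A)).1 ω := h0 (ind A) ω
        linarith
      · intro n A hA ω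
        rw [hD n A hA]
        have : (opS (ind A)).1 ω ≤ (Q (ind A)).1 ω := hS (ind A) ω
        rw [opS_apply, lev_ind hA] at this
        linarith
    -- the decomposition of `f`
    obtain ⟨n, hn⟩ := per_lev f
    have hdisj : |ind (lev f)| ⊓ |f - ind (lev f)| = 0 := by
      apply disj_EE_of
      intro x
      by_cases hx : x ∈ lev f
      · right
        show f.1 x - (ind (lev f)).1 x = 0
        rw [ind_mem hn hx]
        have : f.1 x = 1 := hx
        rw [this, sub_self]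
      · exact Or.inl (ind_notMem hx)
    have h1 := hQ _ _ hdisj
    rw [add_sub_cancel] at h1
    have h2 : (Q f).1 ω = (Q (ind (lev f))).1 ω + (Q (f - ind (lev f))).1 ω := by
      rw [h1]
      rfl
    have h3 : 0 ≤ (Q (f - ind (lev f))).1 ω := h0 _ ω
    have h4 := key1 n (lev f) hn ω
    rw [hD n _ hn] at h4
    show ω.P (lev f) ≤ (Q f).1 ω
    linarith

/-! ### The upper bound -/

theorem one_le (ω : Om) (A : Set ℕ) : 1 ≤ ω.P Aᶜ + ω.N A := by
  have h1 := m_compl ω.τ A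
  have h2 := ω.one_lt
  have h3 := m_nonneg ω.α Aᶜ
  have h4 := m_nonneg ω.β A
  unfold Om.P Om.N
  linarith

end Pool.Agent.X264.OAO
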